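import Mathlib
import Pool.Agent.R441.CN.L

set_option autoImplicit false

namespace Pool.Agent.Results.MP_8f4482_nt.TwistedSign

open Finset NumberField Module

/-- `S_p(x) = ∏_{k=1}^{(p-1)/2} (x - e^{2πi k²/p})`. -/
noncomputable def Sp (p : ℕ) (x : ℂ) : ℂ :=
  ∏ k ∈ Icc 1 ((p - 1) / 2), (x - Complex.exp (2 * Real.pi * Complex.I * (k : ℂ) ^ 2 / p))

/-- `N_p`, the number of `1 ≤ k < p/12` with `(k/p) = 1`. -/
def Np (p : ℕ) [Fact p.Prime] : ℕ :=
  ((range p).filter (fun k : ℕ => 1 ≤ k ∧ 12 * k < p ∧ legendreSym p (k : ℤ) = 1)).card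

/-- `T_s(p) = (-1)^{⌊h/2⌋ + N_p} e^{2πi s·5(p-1)/48} S_p(e^{2πi s/12})`. -/
noncomputable def Ts (p : ℕ) [Fact p.Prime] (h : ℕ) (s : ℂ) : ℂ :=
  (-1) ^ (h / 2 + Np p) * Complex.exp (2 * Real.pi * Complex.I * s * (5 * ((p : ℂ) - 1) / 48)) *
    Sp p (Complex.exp (2 * Real.pi * Complex.I * s / 12))

open Pool.Agent.R441.CN in
theorem result (p : ℕ) [Fact p.Prime] (K : Type) [Field K] [NumberField K]
    (hK : finrank ℚ K = 2) (β : K) (hβ : β ^ 2 = -(p : K)) :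
    (p % 12 = 5 → ((Ts p (classNumber K) 1).im = 0 ∧ 0 < (Ts p (classNumber K) 1).re) ∧
      ((Ts p (classNumber K) (-1)).im = 0 ∧ 0 < (Ts p (classNumber K) (-1)).re)) ∧
    (p % 24 = 11 → ((Ts p (classNumber K) 1).im = 0 ∧ 0 < (Ts p (classNumber K) 1).re) ∧
      ((Ts p (classNumber K) (-1)).im = 0 ∧ (Ts p (classNumber K) (-1)).re < 0)) ∧
    (p % 24 = 23 → ((Ts p (classNumber K) 1).im = 0 ∧ (Ts p (classNumber K) 1).re < 0) ∧
      ((Ts p (classNumber K) (-1)).im = 0 ∧ (Ts p (classNumber K) (-1)).re < 0)) := by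
  have hNN : Np p = NN p := rfl
  have hT1 : ∀ h : ℕ, Ts p h 1 = (-1) ^ (h / 2 + NN p) *
      Complex.exp (Real.pi * Complex.I * (5 * ((p : ℂ) - 1) / 24)) *
      ∏ k ∈ Icc 1 ((p - 1) / 2), (Complex.exp (2 * Real.pi * Complex.I * 1 / 12) -
        Complex.exp (2 * Real.pi * Complex.I * (k : ℂ) ^ 2 / p)) := by
    intro h
    unfold Ts Sp
    rw [hNN, show (2 * Real.pi * Complex.I * 1 * (5 * ((p : ℂ) - 1) / 48) : ℂ) =
      Real.pi * Complex.I * (5 * ((p : ℂ) - 1) / 24) by ring]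
  have hT2 : ∀ h : ℕ, Ts p h (-1) = (-1) ^ (h / 2 + NN p) *
      Complex.exp (Real.pi * Complex.I * (-(5 * ((p : ℂ) - 1) / 24))) *
      ∏ k ∈ Icc 1 ((p - 1) / 2), (Complex.exp (2 * Real.pi * Complex.I * (-1) / 12) -
        Complex.exp (2 * Real.pi * Complex.I * (k : ℂ) ^ 2 / p)) := by
    intro h
    unfold Ts Sp
    rw [hNN, show (2 * Real.pi * Complex.I * (-1) * (5 * ((p : ℂ) - 1) / 48) : ℂ) =
      Real.pi * Complex.I * (-(5 * ((p : ℂ) - 1) / 24)) by ring]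
  refine ⟨fun hp => ?_, fun hp => ?_, fun hp => ?_⟩
  · have h5 : 5 ≤ p := by omega
    have h1 : p % 4 = 1 := by omega
    obtain ⟨m, hm⟩ : ∃ m, p = 12 * m + 5 := ⟨p / 12, by omega⟩
    have hn : (p - 1) / 2 = 6 * m + 2 := by omega
    have hq : (p - 1) / 4 = 3 * m + 1 := by omega
    have hpc : (p : ℂ) = 12 * m + 5 := by exact_mod_cast hm
    obtain ⟨t, ht⟩ := h_half_one h1 K hK β hβ
    obtain ⟨H, hH⟩ : ∃ H : ℕ, classNumber K / 2 = H := ⟨_, rfl⟩
    have htc : (H : ℂ) = 3 * m + 1 + 2 * t := by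
      rw [hq, hH] at ht
      have := congrArg (Int.cast : ℤ → ℂ) ht
      push_cast at this
      exact this
    have hR := R_one (p := p) h1
    obtain ⟨c, hc, hS⟩ := S_plus (p := p) h5
    obtain ⟨d, hd, hS'⟩ := S_minus (p := p) h5
    refine ⟨?_, ?_⟩
    · refine pos_even hc (2 * (t + 9 * m + 3)) ⟨t + 9 * m + 3, by ring⟩ _ ?_
      refine assemble hc _ _ _ _ ?_ _ (by rw [hT1, hS])
      rw [hR, hn, hpc, hH]
      push_cast
      rw [htc]
      ring
    · refine pos_even hd (2 * (t + 6 * m + 2)) ⟨t + 6 * m + 2, by ring⟩ _ ?_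
      refine assemble hd _ _ _ _ ?_ _ (by rw [hT2, hS'])
      rw [hR, hn, hpc, NP_one h1, hH]
      push_cast
      rw [htc]
      ring
  · have h5 : 5 ≤ p := by omega
    have h3 : p % 4 = 3 := by omega
    obtain ⟨k, hk⟩ : ∃ k, p = 24 * k + 11 := ⟨p / 24, by omega⟩
    have hn : (p - 1) / 2 = 12 * k + 5 := by omega
    have hpc : (p : ℂ) = 24 * k + 11 := by exact_mod_cast hk
    obtain ⟨j, hj⟩ := h_odd_three h5 h3 K hK β hβ
    have hj2 : classNumber K / 2 = j := by omega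
    have hR := R_three (p := p) h5 h3 K hK β hβ
    have hNP : (NP p : ℂ) = 2 * k - NN p := by
      have h6 := NP_three (p := p) h3 h5
      have h7 : NP p + NN p = 2 * k := by omega
      have h8 : (NP p : ℂ) + NN p = 2 * k := by exact_mod_cast h7
      linear_combination h8
    obtain ⟨c, hc, hS⟩ := S_plus (p := p) h5
    obtain ⟨d, hd, hS'⟩ := S_minus (p := p) h5
    refine ⟨?_, ?_⟩
    · refine pos_even hc (2 * (15 * k + 6)) ⟨15 * k + 6, by ring⟩ _ ?_
      refine assemble hc _ _ _ _ ?_ _ (by rw [hT1, hS])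
      rw [hR, hn, hpc, hj2, hj]
      push_cast
      ring
    · refine neg_odd hd (2 * (NN p + 8 * k + 3) + 1) ⟨NN p + 8 * k + 3, by ring⟩ _ ?_
      refine assemble hd _ _ _ _ ?_ _ (by rw [hT2, hS'])
      rw [hR, hn, hpc, hNP, hj2, hj]
      push_cast
      ring
  · have h5 : 5 ≤ p := by omega
    have h3 : p % 4 = 3 := by omega
    obtain ⟨k, hk⟩ : ∃ k, p = 24 * k + 23 := ⟨p / 24, by omega⟩
    have hn : (p - 1) / 2 = 12 * k + 11 := by omega
    have hpc : (p : ℂ) = 24 * k + 23 := by exact_mod_cast hk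
    obtain ⟨j, hj⟩ := h_odd_three h5 h3 K hK β hβ
    have hj2 : classNumber K / 2 = j := by omega
    have hR := R_three (p := p) h5 h3 K hK β hβ
    have hNP : (NP p : ℂ) = 2 * k + 1 - NN p := by
      have h6 := NP_three (p := p) h3 h5
      have h7 : NP p + NN p = 2 * k + 1 := by omega
      have h8 : (NP p : ℂ) + NN p = 2 * k + 1 := by exact_mod_cast h7
      linear_combination h8
    obtain ⟨c, hc, hS⟩ := S_plus (p := p) h5
    obtain ⟨d, hd, hS'⟩ := S_minus (p := p) h5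
    refine ⟨?_, ?_⟩
    · refine neg_odd hc (2 * (15 * k + 13) + 1) ⟨15 * k + 13, by ring⟩ _ ?_
      refine assemble hc _ _ _ _ ?_ _ (by rw [hT1, hS])
      rw [hR, hn, hpc, hj2, hj]
      push_cast
      ring
    · refine neg_odd hd (2 * (NN p + 8 * k + 7) + 1) ⟨NN p + 8 * k + 7, by ring⟩ _ ?_
      refine assemble hd _ _ _ _ ?_ _ (by rw [hT2, hS'])
      rw [hR, hn, hpc, hNP, hj2, hj]
      push_cast
      ring

end Pool.Agent.Results.MP_8f4482_nt.TwistedSign
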